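import Mathlib
import Pool.Agent.Helper232.SD.Main

set_option autoImplicit false

namespace Pool.Agent.Results.MP_823891_al.DistributiveInterval

open Pool.Agent.Helper232.RZ (PP InD)

/-- indecomposable: nonzero, and in every direct decomposition one summand is zero -/
def Indecomposable (R : Type) [Ring R] (N : Type) [AddCommGroup N] [Module R N] : Prop :=
  Nontrivial N ∧ ∀ A B : Submodule R N, IsCompl A B → A = ⊥ ∨ B = ⊥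

/-- superdecomposable: nonzero, without indecomposable direct summand -/
def Superdecomposable (R : Type) [Ring R] (N : Type) [AddCommGroup N] [Module R N] : Prop :=
  Nontrivial N ∧ ∀ A B : Submodule R N, IsCompl A B → ¬ Indecomposable R A

/-- pure embedding: injective, and a pp condition (in `n` variables) which holds in `B` at a tuple
of elements of `A` holds already in `A` -/
def PureEmbedding {R : Type} [Ring R] {A B : Type} [AddCommGroup A] [Module R A] [AddCommGroup B]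
    [Module R B] (i : A →ₗ[R] B) : Prop :=
  Function.Injective i ∧
    ∀ (n : ℕ) (φ : PP R n) (x : Fin n → A), φ.H (fun j => i (x j)) → φ.H x

/-- pure-injective: injective with respect to pure embeddings -/
def PureInjective (R : Type) [Ring R] (N : Type) [AddCommGroup N] [Module R N] : Prop :=
  ∀ (A B : Type) [AddCommGroup A] [Module R A] [AddCommGroup B] [Module R B] (i : A →ₗ[R] B),
    PureEmbedding i → ∀ f : A →ₗ[R] N, ∃ g : B →ₗ[R] N, ∀ a, g (i a) = f a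

variable {R : Type} [Ring R]

/-- `φ ≤ ψ` in the lattice `pp¹(𝒳)`, where `𝒳` is the definable category of all modules `M` such
that `φ(M) ⊆ ψ(M)` for all pairs in `Q` (the predicate `InD Q M`) -/
def Le (Q : Set (Σ n : ℕ, PP R n × PP R n)) (φ ψ : PP R 1) : Prop :=
  ∀ (M : Type) [AddCommGroup M] [Module R M], InD Q M → ∀ x : M, φ.h x → ψ.h x

/-- `φ < ψ` in `pp¹(𝒳)` -/
def Lt (Q : Set (Σ n : ℕ, PP R n × PP R n)) (φ ψ : PP R 1) : Prop := Le Q φ ψ ∧ ¬ Le Q ψ φ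

/-- `σ ≤ φ + ψ` in `pp¹(𝒳)` -/
def LeJoin (Q : Set (Σ n : ℕ, PP R n × PP R n)) (σ φ ψ : PP R 1) : Prop :=
  ∀ (M : Type) [AddCommGroup M] [Module R M], InD Q M → ∀ x : M, σ.h x →
    ∃ y z : M, x = y + z ∧ φ.h y ∧ ψ.h z

/-- `φ ∧ ψ ≤ σ` in `pp¹(𝒳)` -/
def MeetLe (Q : Set (Σ n : ℕ, PP R n × PP R n)) (φ ψ σ : PP R 1) : Prop :=
  ∀ (M : Type) [AddCommGroup M] [Module R M], InD Q M → ∀ x : M, φ.h x → ψ.h x → σ.h x

/-- the interval `[β, α]` of `pp¹(𝒳)` is distributive: `φ ∧ (ψ + χ) ≤ (φ ∧ ψ) + (φ ∧ χ)` for all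
`φ, ψ, χ` between `β` and `α` -/
def DistributiveInterval (Q : Set (Σ n : ℕ, PP R n × PP R n)) (β α : PP R 1) : Prop :=
  ∀ φ ψ χ : PP R 1, Le Q β φ → Le Q φ α → Le Q β ψ → Le Q ψ α → Le Q β χ → Le Q χ α →
    ∀ (M : Type) [AddCommGroup M] [Module R M], InD Q M → ∀ x : M, φ.h x →
      (∃ y z : M, x = y + z ∧ ψ.h y ∧ χ.h z) →
      ∃ y z : M, x = y + z ∧ (φ.h y ∧ ψ.h y) ∧ (φ.h z ∧ χ.h z)

/-- `P` is a wide subset of `pp¹(𝒳)` (with at least one pair `ψ < φ`) -/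
def Wide (Q : Set (Σ n : ℕ, PP R n × PP R n)) (P : Set (PP R 1)) : Prop :=
  (∃ φ ∈ P, ∃ ψ ∈ P, Lt Q ψ φ) ∧
  ∀ φ ∈ P, ∀ ψ ∈ P, Lt Q ψ φ → ∃ θ₁ ∈ P, ∃ θ₂ ∈ P,
    ¬ Le Q θ₁ θ₂ ∧ ¬ Le Q θ₂ θ₁ ∧
    Lt Q ψ θ₁ ∧ Lt Q θ₁ φ ∧ Lt Q ψ θ₂ ∧ Lt Q θ₂ φ ∧
    ∃ θ₁₁ ∈ P, ∃ θ₁₂ ∈ P, ∃ θ₂₁ ∈ P, ∃ θ₂₂ ∈ P,
      (LeJoin Q θ₁₁ θ₁ θ₂ ∧ Lt Q θ₁ θ₁₁ ∧ Lt Q θ₁₂ θ₁ ∧ MeetLe Q θ₁ θ₂ θ₁₂) ∧
      (LeJoin Q θ₂₁ θ₁ θ₂ ∧ Lt Q θ₂ θ₂₁ ∧ Lt Q θ₂₂ θ₂ ∧ MeetLe Q θ₁ θ₂ θ₂₂)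

/-- Let `𝒳` be a definable category of modules over an arbitrary ring such that some interval
`[β, α]` of `pp¹(𝒳)` is distributive and contains a wide subset (its width is undefined). Then `𝒳`
contains a superdecomposable pure-injective module. There is no countability assumption. -/
theorem result (R : Type) [Ring R] (Q : Set (Σ n : ℕ, PP R n × PP R n)) (β α : PP R 1)
    (hβα : Le Q β α) (hdist : DistributiveInterval Q β α) (P : Set (PP R 1))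
    (hP : ∀ φ ∈ P, Le Q β φ ∧ Le Q φ α) (hwide : Wide Q P) :
    ∃ (N : Type) (_ : AddCommGroup N) (_ : Module R N),
      InD Q N ∧ PureInjective R N ∧ Superdecomposable R N := by
  obtain ⟨N, i1, i2, hN, hgen⟩ := Pool.Agent.Helper232.RZ.gen Q
  have hle : ∀ φ ψ : PP R 1, Pool.Agent.Helper232.RZ.ppd N φ ≤ Pool.Agent.Helper232.RZ.ppd N ψ ↔
      Le Q φ ψ := by
    intro φ ψ
    rw [Pool.Agent.Helper232.RZ.ppd_le]
    exact ⟨fun h => hgen φ ψ h, fun h => h N hN⟩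
  have hlt : ∀ φ ψ : PP R 1, Pool.Agent.Helper232.RZ.ppd N φ < Pool.Agent.Helper232.RZ.ppd N ψ ↔
      Lt Q φ ψ := by
    intro φ ψ
    rw [lt_iff_le_not_ge, hle, hle]
    exact Iff.rfl
  have hjoin : ∀ σ φ ψ : PP R 1, LeJoin Q σ φ ψ → Pool.Agent.Helper232.RZ.ppd N σ ≤
      Pool.Agent.Helper232.RZ.ppd N φ ⊔ Pool.Agent.Helper232.RZ.ppd N ψ := by
    intro σ φ ψ h
    obtain ⟨κ, hκ⟩ := Pool.Agent.Helper232.RZ.sumTwo φ ψ
    rw [← Pool.Agent.Helper232.RZ.ppd_sup φ ψ κ (hκ N), Pool.Agent.Helper232.RZ.ppd_le]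
    intro x hx
    exact (hκ N x).2 (h N hN x hx)
  obtain ⟨H, j1, j2, hAC, hInD, hnt, hsd⟩ := Pool.Agent.Helper232.RZ.mainN Q N hN β α
    ((hle β α).2 hβα)
    (fun φ ψ χ a1 a2 a3 a4 a5 a6 x hx hx2 => hdist φ ψ χ ((hle _ _).1 a1) ((hle _ _).1 a2)
      ((hle _ _).1 a3) ((hle _ _).1 a4) ((hle _ _).1 a5) ((hle _ _).1 a6) N hN x hx hx2)
    P (fun φ hφ => ⟨(hle _ _).2 (hP φ hφ).1, (hle _ _).2 (hP φ hφ).2⟩)
    (by
      obtain ⟨φ, hφ, ψ, hψ, h⟩ := hwide.1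
      exact ⟨φ, hφ, ψ, hψ, (hlt _ _).2 h⟩)
    (by
      intro φ hφ ψ hψ h
      obtain ⟨c, hc, d, hd, _, _, g1, g2, g3, g4, c', hc', _, _, d', hd', _, _,
        ⟨k1, k2, _, _⟩, k3, k4, _, _⟩ := hwide.2 φ hφ ψ hψ ((hlt _ _).1 h)
      exact ⟨c, hc, d, hd, c', hc', d', hd', (hle _ _).2 g1.1, (hle _ _).2 g3.1, (hlt _ _).2 k2,
        (hlt _ _).2 k4, hjoin _ _ _ k1, hjoin _ _ _ k3, sup_le ((hle _ _).2 g2.1) ((hle _ _).2 g4.1)⟩)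
  exact ⟨H, j1, j2, hInD, fun A B _ _ _ _ i hi f =>
    Pool.Agent.Helper232.RZ.ac_pi hAC A B i hi.2 f, hnt, hsd⟩

end Pool.Agent.Results.MP_823891_al.DistributiveInterval
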